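import Pool.Agent.R597.Am8

/-!
# Amenable forcing relations over a countable transitive model of ZFC

Let `N` be a countable transitive model of ZFC, and let `M ∈ N` be a transitive model of ZFC that
contains all the subsets in `N` of its elements (a level of the cumulative hierarchy of `N`). Let
`P` be a partial order that is definable over `M`. The existence of a generic filter `G` over `M`
with `p ∈ G` such that `φ` is true of the values of given names in `Mext M P G` is equivalent to
the existence of a winning strategy for the second player in a closed game of length `ω`: the first
player plays dense classes, names, and facts that are to be justified, and the second player plays
conditions and (positive and negative) facts on the names and the formula. The set of the winning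
positions of a closed game is the same in `N` and in the universe. Hence the forcing relation is
an element of `N`, and its intersection with an element of `M` is an element of `M`.
-/

set_option autoImplicit false

namespace Pool.Agent.Results.MP_cbd9ca_lc.AmenableForcingRelations

open Pool.Agent.W868 Pool.Agent.W868.GM Pool.Agent.R597
open ZFSet (pair)

/-- There is a countable transitive model `M` of ZFC such that all the partial orders that are
definable over `M` (with parameters) have an `M`-amenable forcing relation, for all formulas. -/
theorem result : ∃ M : ZFSet.{0}, {x | x ∈ M}.Countable ∧ IsZFC {x | x ∈ M} ∧
    ∀ P Le : ZFSet.{0}, IsClassForcing (DefC M) P Le → Amenable M P Le :=
  exists_amenable

end Pool.Agent.Results.MP_cbd9ca_lc.AmenableForcingRelations
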